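import Pool.Agent.Helper32.OIP.Goals

/-!
# OIP, packet O3: the structure maps of inverse maps
-/

namespace Pool.Agent.Helper38.OIP

open MeasureTheory Pool.Agent.Helper32.OIP Pool.Agent.Helper58.Orb

theorem o3 : GoalO3 := by
  intro hR0 hO1 hO2 A B _ _ _ _ S S' D L _ _ T T' e₀ Φ Ψ hP
  obtain ⟨isoL, isoR, hleft, hright⟩ := hP
  obtain ⟨_, h12, _⟩ := hO1 A B S S' D L T T' e₀ Φ isoL
  obtain ⟨k11, k12, _⟩ := hO1 B A S' S L D T' T e₀.symm Ψ isoR
  obtain ⟨h21, _, _⟩ := hO2 hR0 hO1 A B S S' D L T T' e₀ Φ isoL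
  obtain ⟨k21, _, _⟩ := hO2 hR0 hO1 B A S' S L D T' T e₀.symm Ψ isoR
  have hq := isoL.measurePreserving.quasiMeasurePreserving
  have hleft' := ae_forall_shift hleft
  have hright' := hq.ae (ae_forall_shift hright)
  constructor
  · filter_upwards [h12, hq.ae k11, hq.ae k12, hleft'] with x h1 h2 h3 h4
    have h4x : Ψ (Φ x) = x := by
      have := h4 1
      rwa [shift_one] at this
    have h5 : ∀ l, Ψ (shift (T'.dir l) (Φ x)) =
        shift (T.dir ((lab T T' e₀ Φ x).symm l)) (Ψ (Φ x)) := by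
      intro l
      have h6 := h1 ((lab T T' e₀ Φ x).symm l)
      rw [Equiv.apply_symm_apply] at h6
      rw [← h6, h4, h4x]
    obtain ⟨f, hf, huniq⟩ := h2
    rw [huniq _ h3]
    exact (huniq _ h5).symm
  · filter_upwards [h21, hq.ae k21, hleft', hright'] with x h1 h2 h3 h4 a
    have h3x : Ψ (Φ x) = x := by
      have := h3 1
      rwa [shift_one] at this
    obtain ⟨_, h5, _⟩ := h2 a⁻¹
    rw [h3x] at h5
    have h6 : Φ (shift a⁻¹ x) = shift (psn Ψ (Φ x) a⁻¹) (Φ x) := by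
      rw [← h5, h4]
    obtain ⟨h7, h8, _⟩ := h1 (psn Ψ (Φ x) a⁻¹)
    have h9 : psn Φ x (psn Ψ (Φ x) a⁻¹) = a⁻¹ := h7.unique h8 h6
    unfold rd
    rw [inv_inv, h9, inv_inv]

end Pool.Agent.Helper38.OIP
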